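import Pool.Agent.H31.MP.Basic

/-!
# Row NC of the board mtp (helper31, MP_76b9e7_nt)

Coprimality of the least common multiples of rough tuples.
-/

set_option autoImplicit false

open Finset Real ArithmeticFunction
open scoped Nat

namespace Pool.Agent.H1.MTP

open Pool.Agent.H31.MP

theorem sqf_lcm {a b : ℕ} (ha : Squarefree a) (hb : Squarefree b) : Squarefree (Nat.lcm a b) := by
  have ha0 := ha.ne_zero
  have hb0 := hb.ne_zero
  rw [Nat.squarefree_iff_factorization_le_one (Nat.lcm_ne_zero ha0 hb0)]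
  intro p
  rw [Nat.factorization_lcm ha0 hb0, Finsupp.sup_apply]
  exact sup_le ((Nat.squarefree_iff_factorization_le_one ha0).mp ha p)
    ((Nat.squarefree_iff_factorization_le_one hb0).mp hb p)

theorem prime_dvd_lcm {p a b : ℕ} (hp : p.Prime) (h : p ∣ Nat.lcm a b) : p ∣ a ∨ p ∣ b :=
  hp.dvd_mul.mp (h.trans (Nat.lcm_dvd_mul a b))

theorem mem_RS {z Y : ℝ} {a : ℕ} (h : a ∈ RS z Y) : 1 ≤ a ∧ a ≤ ⌊Y⌋₊ ∧ Rgh z a := by
  classical
  unfold RS at h
  rw [Finset.mem_filter, Finset.mem_Icc] at h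
  exact ⟨h.1.1, h.1.2, h.2⟩

theorem mem_Bx {K : ℕ} {z Y : ℝ} {d : Fin K → ℕ} (h : d ∈ Bx K z Y) (i : Fin K) :
    d i ∈ RS z Y :=
  Fintype.mem_piFinset.mp h i

theorem rgh_lcm {z : ℝ} {a b : ℕ} (ha : Rgh z a) (hb : Rgh z b) : Rgh z (Nat.lcm a b) :=
  ⟨sqf_lcm ha.1 hb.1, fun p hp h => (prime_dvd_lcm hp h).elim (ha.2 p hp) (hb.2 p hp)⟩

theorem pf_NC  : T_NC := by
  intro K z Y h d e hh hz hd he
  have hr : ∀ i, Rgh z (Nat.lcm (d i) (e i)) := fun i =>
    rgh_lcm (mem_RS (mem_Bx hd i)).2.2 (mem_RS (mem_Bx he i)).2.2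
  have hco : ∀ i j, i ≠ j →
      (Nat.lcm (d i) (e i)).Coprime ((h i : ℤ) - h j).natAbs := by
    intro i j hij
    refine Nat.Coprime.symm (Nat.coprime_of_dvd fun p hp h1 h2 => ?_)
    have h3 := (hr i).2 p hp h2
    have hne : h i ≠ h j := fun h0 => hij (hh h0)
    have h4 : 0 < ((h i : ℤ) - h j).natAbs := by omega
    have h5 := Nat.le_of_dvd h4 h1
    have h6 : ((h i : ℤ) - h j).natAbs ≤ max (h i) (h j) := by
      rcases le_total (h i) (h j) with h7 | h7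
      · rw [max_eq_right h7]; omega
      · rw [max_eq_left h7]; omega
    have h7 : ((max (h i) (h j) : ℕ) : ℝ) ≤ z := by
      rw [Nat.cast_max]
      exact max_le (hz i) (hz j)
    have h8 : (p : ℝ) ≤ ((max (h i) (h j) : ℕ) : ℝ) := by exact_mod_cast h5.trans h6
    linarith
  refine ⟨hco, ?_, fun i => ⟨Nat.pos_of_ne_zero (hr i).1.ne_zero, (hr i).1, (hr i).2⟩⟩
  rintro ⟨n, hn⟩ i j hij
  refine Nat.coprime_of_dvd fun p hp h1 h2 => ?_
  have h3 : p ∣ n + h i := h1.trans (hn i)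
  have h4 : p ∣ n + h j := h2.trans (hn j)
  have h5 : p ∣ ((h i : ℤ) - h j).natAbs := by
    rw [← Int.natCast_dvd]
    have h6 : (h i : ℤ) - h j = ((n + h i : ℕ) : ℤ) - ((n + h j : ℕ) : ℤ) := by
      push_cast; ring
    rw [h6]
    exact dvd_sub (Int.natCast_dvd_natCast.mpr h3) (Int.natCast_dvd_natCast.mpr h4)
  exact hp.one_lt.ne' (Nat.dvd_one.mp ((hco i j hij) ▸ Nat.dvd_gcd h1 h5))

end Pool.Agent.H1.MTP
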