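import Pool.Agent.H31.MP.Basic
import Pool.Agent.H1.MTP.NC

/-!
# Row QC of the board mtp (helper31, MP_76b9e7_nt)

The coprimality conditions and the function phi in the quadratic form.
-/

set_option autoImplicit false

open Finset Real ArithmeticFunction
open scoped Nat

namespace Pool.Agent.H1.MTP

open Pool.Agent.H31.MP

theorem RS_mono {z Y X : ℝ} (h : Y ≤ X) : RS z Y ⊆ RS z X := by
  classical
  intro a ha
  have h1 := mem_RS ha
  unfold RS
  rw [Finset.mem_filter, Finset.mem_Icc]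
  exact ⟨⟨h1.1, h1.2.1.trans (Nat.floor_mono h)⟩, h1.2.2⟩

theorem Bx_mono {K : ℕ} {z Y X : ℝ} (h : Y ≤ X) : Bx K z Y ⊆ Bx K z X := by
  intro d hd
  exact Fintype.mem_piFinset.mpr fun i => RS_mono h (mem_Bx hd i)

theorem Bx_prod {K : ℕ} (z X : ℝ) (g : Fin K → ℕ → ℕ → ℝ) :
    ∑ d ∈ Bx K z X, ∑ e ∈ Bx K z X, ∏ i, g i (d i) (e i) =
      ∏ i, ∑ u ∈ RS z X, ∑ v ∈ RS z X, g i u v := by
  unfold Bx
  rw [Finset.prod_univ_sum]
  refine Finset.sum_congr rfl fun d _ => ?_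
  rw [Finset.prod_univ_sum]

/-- the primes in question -/
noncomputable def PS (z X : ℝ) : Finset ℕ := (Icc 1 ⌊X⌋₊).filter fun p => p.Prime ∧ z < (p : ℝ)

theorem sum_PS {z X : ℝ} (hz : 0 < z) : ∑ p ∈ PS z X, 1 / (p : ℝ) ^ 2 ≤ 2 / z := by
  have h1 : ∑ p ∈ PS z X, 1 / (p : ℝ) ^ 2 ≤
      ∑ p ∈ Ioo ⌊z⌋₊ (⌊X⌋₊ + 1), ((p : ℝ) ^ 2)⁻¹ := by
    have hsub : PS z X ⊆ Ioo ⌊z⌋₊ (⌊X⌋₊ + 1) := by
      intro p hp
      unfold PS at hp
      rw [Finset.mem_filter, Finset.mem_Icc] at hp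
      rw [Finset.mem_Ioo]
      refine ⟨(Nat.floor_lt hz.le).mpr hp.2.2, by omega⟩
    refine (Finset.sum_le_sum_of_subset_of_nonneg hsub fun p _ _ => by positivity).trans
      (le_of_eq ?_)
    refine Finset.sum_congr rfl fun p _ => ?_
    rw [one_div]
  refine (h1.trans (sum_Ioo_inv_sq_le _ _)).trans ?_
  apply div_le_div_of_nonneg_left (by norm_num) hz
  exact (Nat.lt_floor_add_one z).le

/-- the sums with a common prime factor -/
theorem pair_sum {K : ℕ} {z X C₀ : ℝ} (h1 : ∑ u ∈ RS z X, ∑ v ∈ RS z X, 1 / (Nat.lcm u v : ℝ) ≤ C₀) {p : ℕ} (hp : 0 < p)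
    (h2 : ∑ u ∈ RS z X, ∑ v ∈ RS z X, (if p ∣ Nat.lcm u v then 1 / (Nat.lcm u v : ℝ) else 0) ≤
      C₀ / p) {i j : Fin K} (hij : i ≠ j) :
    ∑ d ∈ Bx K z X, ∑ e ∈ Bx K z X, ∏ k, (if (k = i ∨ k = j) then
      (if p ∣ Nat.lcm (d k) (e k) then 1 / (Nat.lcm (d k) (e k) : ℝ) else 0) else
      1 / (Nat.lcm (d k) (e k) : ℝ)) ≤ C₀ ^ K * (1 / (p : ℝ) ^ 2) := by
  classical
  rw [Bx_prod z X (fun k u v => if (k = i ∨ k = j) then
      (if p ∣ Nat.lcm u v then 1 / (Nat.lcm u v : ℝ) else 0) else 1 / (Nat.lcm u v : ℝ))]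
  have hp' : (0 : ℝ) < p := by exact_mod_cast hp
  have h3 : ∏ k : Fin K, ∑ u ∈ RS z X, ∑ v ∈ RS z X, (if (k = i ∨ k = j) then
      (if p ∣ Nat.lcm u v then 1 / (Nat.lcm u v : ℝ) else 0) else 1 / (Nat.lcm u v : ℝ)) ≤
      ∏ k : Fin K, (C₀ * if (k = i ∨ k = j) then 1 / (p : ℝ) else 1) := by
    refine Finset.prod_le_prod (fun k _ => ?_) fun k _ => ?_
    · refine Finset.sum_nonneg fun u _ => Finset.sum_nonneg fun v _ => ?_
      split_ifs <;> positivity
    · by_cases hk : k = i ∨ k = j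
      · simp only [hk, if_true]
        calc _ ≤ C₀ / p := h2
          _ = C₀ * (1 / (p : ℝ)) := by ring
      · simp only [hk, if_false, mul_one]
        exact h1
  refine h3.trans (le_of_eq ?_)
  rw [Finset.prod_mul_distrib, Finset.prod_const, Finset.card_univ, Fintype.card_fin,
    ← Finset.prod_filter, Finset.prod_const]
  have h4 : (Finset.univ.filter fun k : Fin K => k = i ∨ k = j) = {i, j} := by
    ext k
    simp
  rw [h4, Finset.card_pair hij, one_div_pow]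

theorem pco_fail {K : ℕ} {z X : ℝ} {d e : Fin K → ℕ} (hd : d ∈ Bx K z X) (he : e ∈ Bx K z X)
    (hn : ¬ Pco d e) : ∃ i j : Fin K, i ≠ j ∧ ∃ p ∈ PS z X, p ∣ Nat.lcm (d i) (e i) ∧
      p ∣ Nat.lcm (d j) (e j) := by
  unfold Pco at hn
  push Not at hn
  obtain ⟨i, j, hij, h⟩ := hn
  obtain ⟨p, hp, h1, h2⟩ := Nat.Prime.not_coprime_iff_dvd.mp h
  refine ⟨i, j, hij, p, ?_, h1, h2⟩
  unfold PS
  rw [Finset.mem_filter, Finset.mem_Icc]
  have hdi := mem_RS (mem_Bx hd i)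
  have hei := mem_RS (mem_Bx he i)
  refine ⟨⟨hp.one_lt.le, ?_⟩, hp, (rgh_lcm hdi.2.2 hei.2.2).2 p hp h1⟩
  rcases prime_dvd_lcm hp h1 with h3 | h3
  · exact (Nat.le_of_dvd hdi.1 h3).trans hdi.2.1
  · exact (Nat.le_of_dvd hei.1 h3).trans hei.2.1

open Classical in
/-- the tuples which are not coprime -/
theorem fail_sum {K : ℕ} {z X C₀ : ℝ} (hz : 0 < z) (hC₀ : 1 ≤ C₀)
    (h1 : ∑ u ∈ RS z X, ∑ v ∈ RS z X, 1 / (Nat.lcm u v : ℝ) ≤ C₀)
    (h2 : ∀ p : ℕ, p.Prime → ∑ u ∈ RS z X, ∑ v ∈ RS z X,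
      (if p ∣ Nat.lcm u v then 1 / (Nat.lcm u v : ℝ) else 0) ≤ C₀ / p) :
    ∑ d ∈ Bx K z X, ∑ e ∈ Bx K z X,
      (if Pco d e then 0 else ∏ k, 1 / (Nat.lcm (d k) (e k) : ℝ)) ≤
      (K : ℝ) ^ 2 * C₀ ^ K * (2 / z) := by
  -- the summand is bounded by the sum over the pairs and primes
  have h3 : ∑ d ∈ Bx K z X, ∑ e ∈ Bx K z X,
      (if Pco d e then 0 else ∏ k, 1 / (Nat.lcm (d k) (e k) : ℝ)) ≤
      ∑ d ∈ Bx K z X, ∑ e ∈ Bx K z X, ∑ i : Fin K, ∑ j : Fin K, ∑ p ∈ PS z X,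
        if i = j then 0 else ∏ k, (if (k = i ∨ k = j) then
      (if p ∣ Nat.lcm (d k) (e k) then 1 / (Nat.lcm (d k) (e k) : ℝ) else 0) else
      1 / (Nat.lcm (d k) (e k) : ℝ)) := by
    refine Finset.sum_le_sum fun d hd => Finset.sum_le_sum fun e he => ?_
    have hnn : ∀ (i j : Fin K) (p : ℕ), (0 : ℝ) ≤ if i = j then 0 else
        ∏ k, (if (k = i ∨ k = j) then
      (if p ∣ Nat.lcm (d k) (e k) then 1 / (Nat.lcm (d k) (e k) : ℝ) else 0) else
      1 / (Nat.lcm (d k) (e k) : ℝ)) := by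
      intro i j p
      split_ifs
      · exact le_rfl
      · refine Finset.prod_nonneg fun k _ => ?_
        split_ifs <;> positivity
    by_cases hP : Pco d e
    · rw [if_pos hP]
      exact Finset.sum_nonneg fun i _ => Finset.sum_nonneg fun j _ => Finset.sum_nonneg
        fun p _ => hnn i j p
    · rw [if_neg hP]
      obtain ⟨i, j, hij, p, hp, hpi, hpj⟩ := pco_fail hd he hP
      have e1 : ∏ k, 1 / (Nat.lcm (d k) (e k) : ℝ) = if i = j then 0 else
        ∏ k, (if (k = i ∨ k = j) then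
          (if p ∣ Nat.lcm (d k) (e k) then 1 / (Nat.lcm (d k) (e k) : ℝ) else 0) else
          1 / (Nat.lcm (d k) (e k) : ℝ)) := by
        rw [if_neg hij]
        refine Finset.prod_congr rfl fun k _ => ?_
        by_cases hk : k = i ∨ k = j
        · rw [if_pos hk, if_pos]
          rcases hk with rfl | rfl
          · exact hpi
          · exact hpj
        · rw [if_neg hk]
      rw [e1]
      refine le_trans ?_ (Finset.single_le_sum (fun i _ => Finset.sum_nonneg fun j _ =>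
        Finset.sum_nonneg fun p _ => hnn i j p) (Finset.mem_univ i))
      refine le_trans ?_ (Finset.single_le_sum (fun j _ =>
        Finset.sum_nonneg fun p _ => hnn i j p) (Finset.mem_univ j))
      exact Finset.single_le_sum (f := fun p => if i = j then (0 : ℝ) else
        ∏ k, (if (k = i ∨ k = j) then
          (if p ∣ Nat.lcm (d k) (e k) then 1 / (Nat.lcm (d k) (e k) : ℝ) else 0) else
          1 / (Nat.lcm (d k) (e k) : ℝ))) (fun p _ => hnn i j p) hp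
  refine h3.trans ?_
  -- exchange
  have h4 : ∑ d ∈ Bx K z X, ∑ e ∈ Bx K z X, ∑ i : Fin K, ∑ j : Fin K, ∑ p ∈ PS z X,
        (if i = j then 0 else ∏ k, (if (k = i ∨ k = j) then
      (if p ∣ Nat.lcm (d k) (e k) then 1 / (Nat.lcm (d k) (e k) : ℝ) else 0) else
      1 / (Nat.lcm (d k) (e k) : ℝ))) =
      ∑ i : Fin K, ∑ j : Fin K, ∑ p ∈ PS z X, ∑ d ∈ Bx K z X, ∑ e ∈ Bx K z X,
        (if i = j then 0 else ∏ k, (if (k = i ∨ k = j) then
      (if p ∣ Nat.lcm (d k) (e k) then 1 / (Nat.lcm (d k) (e k) : ℝ) else 0) else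
      1 / (Nat.lcm (d k) (e k) : ℝ))) := by
    calc _ = ∑ d ∈ Bx K z X, ∑ i : Fin K, ∑ j : Fin K, ∑ p ∈ PS z X, ∑ e ∈ Bx K z X,
        (if i = j then 0 else ∏ k, (if (k = i ∨ k = j) then
      (if p ∣ Nat.lcm (d k) (e k) then 1 / (Nat.lcm (d k) (e k) : ℝ) else 0) else
      1 / (Nat.lcm (d k) (e k) : ℝ))) := by
          refine Finset.sum_congr rfl fun d _ => ?_
          rw [Finset.sum_comm]
          refine Finset.sum_congr rfl fun i _ => ?_
          rw [Finset.sum_comm]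
          refine Finset.sum_congr rfl fun j _ => ?_
          rw [Finset.sum_comm]
      _ = _ := by
          rw [Finset.sum_comm]
          refine Finset.sum_congr rfl fun i _ => ?_
          rw [Finset.sum_comm]
          refine Finset.sum_congr rfl fun j _ => ?_
          rw [Finset.sum_comm]
  rw [h4]
  have h5 : ∀ i j : Fin K, ∑ p ∈ PS z X, ∑ d ∈ Bx K z X, ∑ e ∈ Bx K z X,
        (if i = j then 0 else ∏ k, (if (k = i ∨ k = j) then
      (if p ∣ Nat.lcm (d k) (e k) then 1 / (Nat.lcm (d k) (e k) : ℝ) else 0) else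
      1 / (Nat.lcm (d k) (e k) : ℝ))) ≤ C₀ ^ K * (2 / z) := by
    intro i j
    have hCK : 0 ≤ C₀ ^ K := by positivity
    by_cases hij : i = j
    · simp only [hij, if_true, Finset.sum_const_zero]
      positivity
    · simp only [hij, if_false]
      calc _ ≤ ∑ p ∈ PS z X, C₀ ^ K * (1 / (p : ℝ) ^ 2) := by
            refine Finset.sum_le_sum fun p hp => ?_
            unfold PS at hp
            rw [Finset.mem_filter] at hp
            exact pair_sum h1 hp.2.1.pos (h2 p hp.2.1) hij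
        _ = C₀ ^ K * ∑ p ∈ PS z X, 1 / (p : ℝ) ^ 2 := by rw [Finset.mul_sum]
        _ ≤ C₀ ^ K * (2 / z) := mul_le_mul_of_nonneg_left (sum_PS hz) hCK
  calc _ ≤ ∑ _i : Fin K, ∑ _j : Fin K, C₀ ^ K * (2 / z) :=
        Finset.sum_le_sum fun i _ => Finset.sum_le_sum fun j _ => h5 i j
    _ = (K : ℝ) ^ 2 * C₀ ^ K * (2 / z) := by
        simp only [Finset.sum_const, Finset.card_univ, Fintype.card_fin, nsmul_eq_mul]
        ring

theorem om_RS {δ X : ℝ} (hδ : 0 < δ) (hX : 2 ≤ X) {u : ℕ} (hu : u ∈ RS (X ^ δ) X) :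
    u.primeFactors.card ≤ ⌊1 / δ⌋₊ := by
  have h := mem_RS hu
  have hX0 : 0 < X := by linarith
  have h1 : (X ^ δ) ^ u.primeFactors.card ≤ X := by
    calc (X ^ δ) ^ u.primeFactors.card = ∏ _p ∈ u.primeFactors, X ^ δ := by
          rw [Finset.prod_const]
      _ ≤ ∏ p ∈ u.primeFactors, (p : ℝ) := by
          refine Finset.prod_le_prod (fun p _ => by positivity) fun p hp => ?_
          exact (h.2.2.2 p (Nat.prime_of_mem_primeFactors hp) (Nat.dvd_of_mem_primeFactors hp)).le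
      _ = (u : ℝ) := by
          rw [← Nat.cast_prod, Nat.prod_primeFactors_of_squarefree h.2.2.1]
      _ ≤ X := (Nat.cast_le.mpr h.2.1).trans (Nat.floor_le hX0.le)
  rw [← Real.rpow_natCast, ← Real.rpow_mul hX0.le] at h1
  have h2 : δ * u.primeFactors.card ≤ 1 := by
    by_contra hc
    push Not at hc
    have h3 : X ^ (1 : ℝ) < X ^ (δ * (u.primeFactors.card : ℝ)) :=
      Real.rpow_lt_rpow_of_exponent_lt (by linarith) hc
    rw [Real.rpow_one] at h3
    linarith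
  apply Nat.le_floor
  rw [le_div_iff₀ hδ]
  linarith

theorem om_lcm {δ X : ℝ} (hδ : 0 < δ) (hX : 2 ≤ X) {u v : ℕ} (hu : u ∈ RS (X ^ δ) X)
    (hv : v ∈ RS (X ^ δ) X) : (Nat.lcm u v).primeFactors.card ≤ 2 * ⌊1 / δ⌋₊ := by
  have hu1 := mem_RS hu
  have hv1 := mem_RS hv
  have hsub : (Nat.lcm u v).primeFactors ⊆ u.primeFactors ∪ v.primeFactors := by
    intro p hp
    have hp1 := Nat.prime_of_mem_primeFactors hp
    rw [Finset.mem_union, Nat.mem_primeFactors_of_ne_zero (by omega),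
      Nat.mem_primeFactors_of_ne_zero (by omega)]
    rcases prime_dvd_lcm hp1 (Nat.dvd_of_mem_primeFactors hp) with h | h
    · exact Or.inl ⟨hp1, h⟩
    · exact Or.inr ⟨hp1, h⟩
  have h1 := Finset.card_le_card hsub
  have h2 := Finset.card_union_le u.primeFactors v.primeFactors
  have h3 := om_RS hδ hX hu
  have h4 := om_RS hδ hX hv
  omega

theorem tot_le {z : ℝ} (hz : 0 < z) {m : ℕ} (hm : Rgh z m) {L : ℕ}
    (hL : m.primeFactors.card ≤ L) : (m : ℝ) ≤ (1 + 2 / z) ^ L * m.totient := by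
  have h1 : (m.totient : ℝ) = m * ∏ p ∈ m.primeFactors, (1 - (p : ℝ)⁻¹) := by
    have h := Nat.totient_eq_mul_prod_factors m
    have h2 : ((m.totient : ℚ) : ℝ) = ((m * ∏ p ∈ m.primeFactors, (1 - (p : ℚ)⁻¹) : ℚ) : ℝ) := by
      rw [h]
    push_cast at h2
    exact h2
  have hz1 : 1 ≤ 1 + 2 / z := by
    have : 0 ≤ 2 / z := by positivity
    linarith
  have h2 : (1 : ℝ) ≤ (1 + 2 / z) ^ m.primeFactors.card * ∏ p ∈ m.primeFactors,
      (1 - (p : ℝ)⁻¹) := by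
    rw [← Finset.prod_const, ← Finset.prod_mul_distrib]
    have h3 : ∏ p ∈ m.primeFactors, (1 : ℝ) ≤ ∏ p ∈ m.primeFactors,
        ((1 + 2 / z) * (1 - (p : ℝ)⁻¹)) := by
      refine Finset.prod_le_prod (fun _ _ => zero_le_one) fun p hp => ?_
      have hp1 := Nat.prime_of_mem_primeFactors hp
      have hp2 : (2 : ℝ) ≤ p := by exact_mod_cast hp1.two_le
      have hp3 := hm.2 p hp1 (Nat.dvd_of_mem_primeFactors hp)
      have hp0 : (0 : ℝ) < p := by linarith
      have h4 : 2 / (p : ℝ) ≤ 2 / z := div_le_div_of_nonneg_left (by norm_num) hz hp3.le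
      have h5 : 0 ≤ 1 - (p : ℝ)⁻¹ := by
        have h6 : (p : ℝ)⁻¹ ≤ 1 := inv_le_one_of_one_le₀ (by linarith)
        linarith
      have h7 : 1 ≤ (1 + 2 / (p : ℝ)) * (1 - (p : ℝ)⁻¹) := by
        have h8 : (1 + 2 / (p : ℝ)) * (1 - (p : ℝ)⁻¹) = 1 + ((p : ℝ) - 2) / (p : ℝ) ^ 2 := by
          field_simp
          ring
        rw [h8]
        have h9 : 0 ≤ ((p : ℝ) - 2) / (p : ℝ) ^ 2 := div_nonneg (by linarith) (by positivity)
        linarith
      exact h7.trans (mul_le_mul_of_nonneg_right (by linarith) h5)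
    simpa using h3
  have h3 : (1 + 2 / z) ^ m.primeFactors.card ≤ (1 + 2 / z) ^ L := pow_le_pow_right₀ hz1 hL
  have h4 : 0 ≤ (m.totient : ℝ) := Nat.cast_nonneg _
  calc (m : ℝ) = m * 1 := (mul_one _).symm
    _ ≤ m * ((1 + 2 / z) ^ m.primeFactors.card * ∏ p ∈ m.primeFactors, (1 - (p : ℝ)⁻¹)) :=
        mul_le_mul_of_nonneg_left h2 (Nat.cast_nonneg _)
    _ = (1 + 2 / z) ^ m.primeFactors.card * m.totient := by rw [h1]; ring
    _ ≤ (1 + 2 / z) ^ L * m.totient := mul_le_mul_of_nonneg_right h3 h4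

theorem pow_conv (M : ℕ) {s : ℝ} (h0 : 0 ≤ s) (h1 : s ≤ 1) :
    (1 + 2 * s) ^ M ≤ 1 + s * (3 ^ M - 1) := by
  induction M with
  | zero => simp
  | succ M ih =>
    have h3 : (1 : ℝ) ≤ 3 ^ M := one_le_pow₀ (by norm_num)
    calc (1 + 2 * s) ^ (M + 1) = (1 + 2 * s) ^ M * (1 + 2 * s) := pow_succ _ _
      _ ≤ (1 + s * (3 ^ M - 1)) * (1 + 2 * s) := mul_le_mul_of_nonneg_right ih (by linarith)
      _ ≤ 1 + s * (3 ^ (M + 1) - 1) := by
        rw [pow_succ]
        nlinarith [mul_nonneg (mul_nonneg h0 (sub_nonneg.mpr h1)) (sub_nonneg.mpr h3)]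

theorem pf_QC (hQO : T_QO) : T_QC := by
  classical
  intro K δ C hδ hC
  obtain ⟨C₁, hC₁, hQ⟩ := hQO δ hδ
  set C₀ : ℝ := max C₁ 1 with hC₀
  have hC₀1 : 1 ≤ C₀ := le_max_right _ _
  have hC₁₀ : C₁ ≤ C₀ := le_max_left _ _
  set M : ℕ := 2 * ⌊1 / δ⌋₊ * K with hM
  have hCK : (0 : ℝ) ≤ C₀ ^ K := by positivity
  refine ⟨C ^ 2 * ((K : ℝ) ^ 2 * C₀ ^ K * 2) + C ^ 2 * (3 ^ M * C₀ ^ K) + 1, by positivity, ?_⟩
  intro X Y l hX hY hl
  obtain ⟨hQ1, hQ2, _, _⟩ := hQ X hX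
  set z : ℝ := X ^ δ with hz
  have hX0 : 0 < X := by linarith
  have hz0 : 0 < z := Real.rpow_pos_of_pos hX0 δ
  have hz1 : 1 ≤ z := Real.one_le_rpow (by linarith) hδ.le
  have hinv : X ^ (-δ) = 1 / z := by rw [Real.rpow_neg hX0.le, one_div]
  have h1 : ∑ u ∈ RS z X, ∑ v ∈ RS z X, 1 / (Nat.lcm u v : ℝ) ≤ C₀ := hQ1.trans hC₁₀
  have h2 : ∀ p : ℕ, p.Prime → ∑ u ∈ RS z X, ∑ v ∈ RS z X,
      (if p ∣ Nat.lcm u v then 1 / (Nat.lcm u v : ℝ) else 0) ≤ C₀ / p := by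
    intro p hp
    refine (hQ2 p hp).trans ?_
    have : (0 : ℝ) < p := by exact_mod_cast hp.pos
    gcongr
  have hsub : Bx K z Y ⊆ Bx K z X := Bx_mono hY
  have hbd : ∀ d e : Fin K → ℕ, |l d * l e| ≤ C ^ 2 := by
    intro d e
    rw [abs_mul, sq]
    exact mul_le_mul (hl.bd d) (hl.bd e) (abs_nonneg _) hC
  have hprod : ∀ d e : Fin K → ℕ, (∏ i, (Nat.lcm (d i) (e i) : ℝ))⁻¹ =
      ∏ i, 1 / (Nat.lcm (d i) (e i) : ℝ) := by
    intro d e
    rw [← Finset.prod_inv_distrib]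
    exact Finset.prod_congr rfl fun i _ => (one_div _).symm
  have hpn : ∀ d e : Fin K → ℕ, 0 ≤ ∏ i, 1 / (Nat.lcm (d i) (e i) : ℝ) := fun d e =>
    Finset.prod_nonneg fun i _ => by positivity
  -- the first difference
  have hA : |∑ d ∈ Bx K z Y, ∑ e ∈ Bx K z Y,
      (if Pco d e then l d * l e / ∏ i, (Nat.lcm (d i) (e i) : ℝ) else 0) - QF z Y l| ≤
      C ^ 2 * ((K : ℝ) ^ 2 * C₀ ^ K * 2) * (1 / z) := by
    unfold QF
    rw [← Finset.sum_sub_distrib]
    calc _ ≤ ∑ d ∈ Bx K z Y, ∑ e ∈ Bx K z Y,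
          (if Pco d e then 0 else C ^ 2 * ∏ k, 1 / (Nat.lcm (d k) (e k) : ℝ)) := by
          refine (Finset.abs_sum_le_sum_abs _ _).trans (Finset.sum_le_sum fun d _ => ?_)
          rw [← Finset.sum_sub_distrib]
          refine (Finset.abs_sum_le_sum_abs _ _).trans (Finset.sum_le_sum fun e _ => ?_)
          by_cases hP : Pco d e
          · simp [hP]
          · rw [if_neg hP, if_neg hP, zero_sub, abs_neg, div_eq_mul_inv, hprod, abs_mul,
              abs_of_nonneg (hpn d e)]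
            exact mul_le_mul_of_nonneg_right (hbd d e) (hpn d e)
      _ ≤ ∑ d ∈ Bx K z X, ∑ e ∈ Bx K z X,
          (if Pco d e then 0 else C ^ 2 * ∏ k, 1 / (Nat.lcm (d k) (e k) : ℝ)) := by
          have hnn : ∀ d e : Fin K → ℕ, 0 ≤
              (if Pco d e then 0 else C ^ 2 * ∏ k, 1 / (Nat.lcm (d k) (e k) : ℝ)) := by
            intro d e
            split_ifs
            · exact le_rfl
            · exact mul_nonneg (sq_nonneg _) (hpn d e)
          refine (Finset.sum_le_sum fun d _ =>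
            Finset.sum_le_sum_of_subset_of_nonneg hsub fun e _ _ => hnn d e).trans ?_
          exact Finset.sum_le_sum_of_subset_of_nonneg hsub fun d _ _ =>
            Finset.sum_nonneg fun e _ => hnn d e
      _ = C ^ 2 * ∑ d ∈ Bx K z X, ∑ e ∈ Bx K z X,
          (if Pco d e then 0 else ∏ k, 1 / (Nat.lcm (d k) (e k) : ℝ)) := by
          rw [Finset.mul_sum]
          refine Finset.sum_congr rfl fun d _ => ?_
          rw [Finset.mul_sum]
          refine Finset.sum_congr rfl fun e _ => ?_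
          split_ifs
          · rw [mul_zero]
          · rfl
      _ ≤ C ^ 2 * ((K : ℝ) ^ 2 * C₀ ^ K * (2 / z)) :=
          mul_le_mul_of_nonneg_left (fail_sum hz0 hC₀1 h1 h2) (sq_nonneg _)
      _ = _ := by ring
  have hzinv : 0 ≤ 1 / z := by positivity
  constructor
  · rw [hinv]
    refine hA.trans (mul_le_mul_of_nonneg_right ?_ hzinv)
    have h5 : 0 ≤ C ^ 2 * (3 ^ M * C₀ ^ K) := by positivity
    linarith
  -- the second difference
  have hB : |∑ d ∈ Bx K z Y, ∑ e ∈ Bx K z Y,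
      (if Pco d e then l d * l e / ∏ i, ((Nat.lcm (d i) (e i)).totient : ℝ) else 0) -
      ∑ d ∈ Bx K z Y, ∑ e ∈ Bx K z Y,
      (if Pco d e then l d * l e / ∏ i, (Nat.lcm (d i) (e i) : ℝ) else 0)| ≤
      C ^ 2 * (3 ^ M * C₀ ^ K) * (1 / z) := by
    rw [← Finset.sum_sub_distrib]
    have hkey : ∀ d ∈ Bx K z Y, ∀ e ∈ Bx K z Y,
        |(∏ i, ((Nat.lcm (d i) (e i)).totient : ℝ))⁻¹ - ∏ i, 1 / (Nat.lcm (d i) (e i) : ℝ)| ≤
        3 ^ M * (1 / z) * ∏ i, 1 / (Nat.lcm (d i) (e i) : ℝ) := by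
      intro d hd e he
      have hr : ∀ i, Rgh z (Nat.lcm (d i) (e i)) := fun i =>
        rgh_lcm (mem_RS (mem_Bx hd i)).2.2 (mem_RS (mem_Bx he i)).2.2
      have hpos : ∀ i, 0 < Nat.lcm (d i) (e i) := fun i =>
        Nat.pos_of_ne_zero (hr i).1.ne_zero
      have hposR : ∀ i, (0 : ℝ) < (Nat.lcm (d i) (e i) : ℝ) := fun i => by
        exact_mod_cast hpos i
      have htpos : ∀ i, (0 : ℝ) < ((Nat.lcm (d i) (e i)).totient : ℝ) := fun i => by
        exact_mod_cast Nat.totient_pos.mpr (hpos i)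
      have hP1 : 0 < ∏ i, (Nat.lcm (d i) (e i) : ℝ) := Finset.prod_pos fun i _ => hposR i
      have hP2 : 0 < ∏ i, ((Nat.lcm (d i) (e i)).totient : ℝ) :=
        Finset.prod_pos fun i _ => htpos i
      have hle : ∏ i, ((Nat.lcm (d i) (e i)).totient : ℝ) ≤ ∏ i, (Nat.lcm (d i) (e i) : ℝ) :=
        Finset.prod_le_prod (fun i _ => (htpos i).le) fun i _ => by
          exact_mod_cast Nat.totient_le _
      have hge : ∏ i, (Nat.lcm (d i) (e i) : ℝ) ≤
          (1 + 3 ^ M * (1 / z)) * ∏ i, ((Nat.lcm (d i) (e i)).totient : ℝ) := by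
        calc ∏ i, (Nat.lcm (d i) (e i) : ℝ) ≤
            ∏ i, ((1 + 2 / z) ^ (2 * ⌊1 / δ⌋₊) * ((Nat.lcm (d i) (e i)).totient : ℝ)) := by
              refine Finset.prod_le_prod (fun i _ => (hposR i).le) fun i _ => ?_
              exact tot_le hz0 (hr i) (om_lcm hδ hX (mem_Bx (hsub hd) i) (mem_Bx (hsub he) i))
          _ = (1 + 2 * (1 / z)) ^ M * ∏ i, ((Nat.lcm (d i) (e i)).totient : ℝ) := by
              rw [Finset.prod_mul_distrib, Finset.prod_const, Finset.card_univ, Fintype.card_fin,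
                ← pow_mul, hM]
              congr 3
              ring
          _ ≤ _ := by
              refine mul_le_mul_of_nonneg_right ?_ hP2.le
              have h6 := pow_conv M hzinv ((div_le_one hz0).mpr hz1)
              nlinarith
      rw [← hprod]
      have h7 : (∏ i, (Nat.lcm (d i) (e i) : ℝ))⁻¹ ≤
          (∏ i, ((Nat.lcm (d i) (e i)).totient : ℝ))⁻¹ := inv_anti₀ hP2 hle
      rw [abs_of_nonneg (sub_nonneg.mpr h7), sub_le_iff_le_add]
      have h8 : (∏ i, ((Nat.lcm (d i) (e i)).totient : ℝ))⁻¹ ≤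
          (1 + 3 ^ M * (1 / z)) * (∏ i, (Nat.lcm (d i) (e i) : ℝ))⁻¹ := by
        rw [← div_eq_mul_inv, inv_eq_one_div, div_le_div_iff₀ hP2 hP1, one_mul]
        exact hge
      linarith
    calc _ ≤ ∑ d ∈ Bx K z Y, ∑ e ∈ Bx K z Y,
          C ^ 2 * (3 ^ M * (1 / z) * ∏ k, 1 / (Nat.lcm (d k) (e k) : ℝ)) := by
          refine (Finset.abs_sum_le_sum_abs _ _).trans (Finset.sum_le_sum fun d hd => ?_)
          rw [← Finset.sum_sub_distrib]
          refine (Finset.abs_sum_le_sum_abs _ _).trans (Finset.sum_le_sum fun e he => ?_)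
          have h9 : 0 ≤ C ^ 2 * (3 ^ M * (1 / z) * ∏ k, 1 / (Nat.lcm (d k) (e k) : ℝ)) :=
            mul_nonneg (sq_nonneg _) (mul_nonneg (by positivity) (hpn d e))
          by_cases hP : Pco d e
          · rw [if_pos hP, if_pos hP, div_eq_mul_inv, div_eq_mul_inv, hprod, ← mul_sub, abs_mul]
            exact mul_le_mul (hbd d e) (hkey d hd e he) (abs_nonneg _) (sq_nonneg _)
          · rw [if_neg hP, if_neg hP, sub_zero, abs_zero]
            exact h9
      _ ≤ ∑ d ∈ Bx K z X, ∑ e ∈ Bx K z X,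
          C ^ 2 * (3 ^ M * (1 / z) * ∏ k, 1 / (Nat.lcm (d k) (e k) : ℝ)) := by
          have hnn : ∀ d e : Fin K → ℕ,
              0 ≤ C ^ 2 * (3 ^ M * (1 / z) * ∏ k, 1 / (Nat.lcm (d k) (e k) : ℝ)) := fun d e =>
            mul_nonneg (sq_nonneg _) (mul_nonneg (by positivity) (hpn d e))
          refine (Finset.sum_le_sum fun d _ =>
            Finset.sum_le_sum_of_subset_of_nonneg hsub fun e _ _ => hnn d e).trans ?_
          exact Finset.sum_le_sum_of_subset_of_nonneg hsub fun d _ _ =>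
            Finset.sum_nonneg fun e _ => hnn d e
      _ = C ^ 2 * (3 ^ M * (1 / z)) * ∑ d ∈ Bx K z X, ∑ e ∈ Bx K z X,
          ∏ k, 1 / (Nat.lcm (d k) (e k) : ℝ) := by
          rw [Finset.mul_sum]
          refine Finset.sum_congr rfl fun d _ => ?_
          rw [Finset.mul_sum]
          refine Finset.sum_congr rfl fun e _ => ?_
          ring
      _ ≤ C ^ 2 * (3 ^ M * (1 / z)) * C₀ ^ K := by
          refine mul_le_mul_of_nonneg_left ?_ (by positivity)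
          rw [Bx_prod z X (fun _ u v => 1 / (Nat.lcm u v : ℝ))]
          calc _ ≤ ∏ _i : Fin K, C₀ := by
                refine Finset.prod_le_prod (fun i _ => ?_) fun i _ => h1
                exact Finset.sum_nonneg fun u _ => Finset.sum_nonneg fun v _ => by positivity
            _ = C₀ ^ K := by rw [Finset.prod_const, Finset.card_univ, Fintype.card_fin]
      _ = _ := by ring
  rw [hinv]
  have h10 := abs_add_le (∑ d ∈ Bx K z Y, ∑ e ∈ Bx K z Y,
      (if Pco d e then l d * l e / ∏ i, ((Nat.lcm (d i) (e i)).totient : ℝ) else 0) -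
      ∑ d ∈ Bx K z Y, ∑ e ∈ Bx K z Y,
      (if Pco d e then l d * l e / ∏ i, (Nat.lcm (d i) (e i) : ℝ) else 0))
    (∑ d ∈ Bx K z Y, ∑ e ∈ Bx K z Y,
      (if Pco d e then l d * l e / ∏ i, (Nat.lcm (d i) (e i) : ℝ) else 0) - QF z Y l)
  rw [sub_add_sub_cancel] at h10
  calc _ ≤ _ := h10
    _ ≤ C ^ 2 * (3 ^ M * C₀ ^ K) * (1 / z) + C ^ 2 * ((K : ℝ) ^ 2 * C₀ ^ K * 2) * (1 / z) :=
        add_le_add hB hA
    _ ≤ _ := by nlinarith

end Pool.Agent.H1.MTP
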